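import Mathlib
import Pool.Agent.X124.SweepSeq

/-!
# The zero-one law for `Bad_A` fails on cosets of subtori

The definitions (`Torus`, `proj`, `size`, `mulInt`, `Bad`, `Singular`, `IsSubtorus`,
`IsHaarOnCoset`) are in `Pool.Agent.X124.TorusDefs`.
-/

open MeasureTheory

namespace Pool.Agent.Results.MP_39ae23_nt.NoZeroOneLaw

open Pool.Agent.X124.TorusDefs

/-- There are a `2 × 1` matrix `A`, which is not singular, and a one-dimensional subtorus `H` of
`𝕋²` with a coset `x + H` whose Haar probability measure `μ` satisfies `0 < μ (Bad A) < 1`. In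
particular the zero-one law for algebraic measures is false. -/
theorem result :
    (∃ (A : Matrix (Fin 2) (Fin 1) ℝ) (μ : Measure (Torus 2)) (x : Torus 2)
      (H : AddSubgroup (Torus 2)), ¬ Singular A ∧ IsSubtorus H 1 ∧ IsHaarOnCoset μ x H ∧
        MeasurableSet (Bad A) ∧ 0 < μ (Bad A) ∧ μ (Bad A) < 1) ∧
    ¬ (∀ (m n : ℕ), 1 ≤ m → 1 ≤ n → ∀ (A : Matrix (Fin m) (Fin n) ℝ) (μ : Measure (Torus m))
      (x : Torus m) (H : AddSubgroup (Torus m)) (r : ℕ), IsSubtorus H r → IsHaarOnCoset μ x H →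
        μ (Bad A) = 0 ∨ μ (Bad A) = 1) := by
  have h1 : ∃ (A : Matrix (Fin 2) (Fin 1) ℝ) (μ : Measure (Torus 2)) (x : Torus 2)
      (H : AddSubgroup (Torus 2)), ¬ Singular A ∧ IsSubtorus H 1 ∧ IsHaarOnCoset μ x H ∧
        MeasurableSet (Bad A) ∧ 0 < μ (Bad A) ∧ μ (Bad A) < 1 :=
    ⟨_, _, _, _, Pool.Agent.X124.TorusExample.nonsingular,
      Pool.Agent.X124.TorusExample.vert_subtorus,
      Pool.Agent.X124.TorusExample.haarAt_isHaar _,
      Pool.Agent.X124.SweepSeq.measurableSet_bad _,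
      Pool.Agent.X124.SweepSeq.mu_pos, Pool.Agent.X124.SweepSeq.mu_lt⟩
  refine ⟨h1, fun h => ?_⟩
  obtain ⟨A, μ, x, H, _, hH, hμ, _, h0, hlt⟩ := h1
  rcases h 2 1 (by norm_num) le_rfl A μ x H 1 hH hμ with h2 | h2
  · exact h0.ne' h2
  · exact hlt.ne h2

end Pool.Agent.Results.MP_39ae23_nt.NoZeroOneLaw
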